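import Pool.Agent.H633.SH.Cat
import Pool.Agent.Y443.BR.Perf
import Pool.Agent.H812R3.CantorChar

/-!
# Analytic subsets of the Cantor space are countable unions of homogeneous sets
-/

set_option autoImplicit false

namespace Pool.Agent.H633.SH

open Set Filter Topology PiNat MeasureTheory CantorScheme Function
open scoped ENNReal

instance polishOm : PolishSpace Om := ⟨⟩

section
variable {α β : Type*} [MetricSpace α] [SecondCountableTopology α] [TopologicalSpace β] [T2Space β]
  {f : α → β}

/-- The perfect set theorem, with a continuous injection. (The proof is that of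
`Pool.Agent.Y443.BR.exists_injection`.) -/
theorem exists_cont_injection (hf : Continuous f) [CompleteSpace α] (hc : ¬ (range f).Countable) :
    ∃ g : (ℕ → Bool) → α, Continuous g ∧ Injective (f ∘ g) := by
  obtain ⟨u, -, upos', hu⟩ := exists_seq_strictAnti_tendsto' (zero_lt_one' ℝ≥0∞)
  have upos := fun n => (upos' n).1
  let P := Subtype fun E : Set α => IsClosed E ∧ ¬ (f '' E).Countable
  choose C0 C1 h0 h1 hdisj using
    fun {E : Set α} (hE : IsClosed E) (hEc : ¬ (f '' E).Countable) {ε : ℝ≥0∞} (hε : 0 < ε) =>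
    Y443.BR.split hf hE hEc hε
  let DP : List Bool → P := fun l => by
    induction l with
    | nil => exact ⟨univ, ⟨isClosed_univ, by rwa [image_univ]⟩⟩
    | cons a l ih =>
      cases a
      · use C0 ih.property.1 ih.property.2 (upos (l.length + 1))
        exact ⟨(h0 _ _ _).1, (h0 _ _ _).2.1⟩
      use C1 ih.property.1 ih.property.2 (upos (l.length + 1))
      exact ⟨(h1 _ _ _).1, (h1 _ _ _).2.1⟩
  let D : List Bool → Set α := fun l => (DP l).val
  have hanti : ClosureAntitone D := by
    refine Antitone.closureAntitone ?_ fun l => (DP l).property.1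
    intro l a
    cases a
    · exact (h0 _ _ _).2.2.1
    exact (h1 _ _ _).2.2.1
  have hdiam : VanishingDiam D := by
    intro x
    apply tendsto_of_tendsto_of_tendsto_of_le_of_le' tendsto_const_nhds hu
    · simp
    rw [eventually_atTop]
    refine ⟨1, fun m (hm : 1 ≤ m) => ?_⟩
    rw [Nat.one_le_iff_ne_zero] at hm
    rcases Nat.exists_eq_succ_of_ne_zero hm with ⟨n, rfl⟩
    dsimp
    cases x n
    · convert! (h0 _ _ _).2.2.2
      rw [PiNat.res_length]
    convert! (h1 _ _ _).2.2.2
    rw [PiNat.res_length]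
  have hdisj' : ∀ (l : List Bool) (a b : Bool), a ≠ b →
      Disjoint (f '' D (a :: l)) (f '' D (b :: l)) := by
    rintro l (a | a) (b | b) hab <;> try contradiction
    · exact hdisj _ _ _
    exact (hdisj _ _ _).symm
  have hnon : ∀ l, (D l).Nonempty := by
    intro l
    by_contra h
    rw [not_nonempty_iff_eq_empty] at h
    apply (DP l).property.2
    have : (DP l).val = ∅ := h
    rw [this, image_empty]
    exact countable_empty
  have hdom : ∀ {x : ℕ → Bool}, x ∈ (inducedMap D).1 := fun {x} => by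
    rw [hanti.map_of_vanishingDiam hdiam hnon]
    apply mem_univ
  refine ⟨fun x => (inducedMap D).2 ⟨x, hdom⟩, hdiam.map_continuous.comp
    (continuous_id.subtype_mk _), ?_⟩
  intro x y hxy
  refine res_injective ?_
  ext n : 1
  induction n with
  | zero => simp
  | succ n ih =>
    simp only [res_succ, List.cons.injEq]
    refine ⟨?_, ih⟩
    by_contra hne
    have h2 := hdisj' (res x n) (x n) (y n) hne
    rw [Set.disjoint_left] at h2
    refine h2 (a := f ((inducedMap D).2 ⟨x, hdom⟩)) ?_ ?_
    · rw [← res_succ]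
      exact mem_image_of_mem f (map_mem (A := D) ⟨x, hdom⟩ (n + 1))
    · have h3 : f ((inducedMap D).2 ⟨x, hdom⟩) = f ((inducedMap D).2 ⟨y, hdom⟩) := hxy
      rw [h3, ih, ← res_succ]
      exact mem_image_of_mem f (map_mem (A := D) ⟨y, hdom⟩ (n + 1))

end

lemma perf {A : Set Om} (hA : AnalyticSet A) (hc : ¬ A.Countable) :
    ∃ k : Om → Om, Continuous k ∧ Injective k ∧ ∀ a, k a ∈ A := by
  rw [analyticSet_iff_exists_polishSpace_range] at hA
  obtain ⟨γ, t, hp, f, hf, rfl⟩ := hA
  let _ := TopologicalSpace.upgradeIsCompletelyMetrizable γ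
  obtain ⟨g, hgc, hg⟩ := exists_cont_injection hf hc
  exact ⟨f ∘ g, hf.comp hgc, hg, fun a => mem_range_self _⟩

lemma AnalyticSet_inter {X : Type*} [TopologicalSpace X] [T2Space X] {A B : Set X}
    (hA : AnalyticSet A) (hB : AnalyticSet B) : AnalyticSet (A ∩ B) := by
  rw [inter_eq_iInter]
  refine AnalyticSet.iInter fun b => ?_
  cases b
  · exact hB
  · exact hA

lemma isClopen_cy (v : List Bool) : IsClopen (cy v) := by
  by_cases hv : ∃ c, res c v.length = v
  · obtain ⟨c, hc⟩ := hv
    rw [← hc, cy_res]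
    refine ⟨?_, isOpen_cyl _ _⟩
    rw [← isOpen_compl_iff, isOpen_iff_mem_nhds]
    intro y hy
    refine mem_of_superset ((isOpen_cyl y v.length).mem_nhds (self_mem_cylinder y _)) ?_
    intro z hz hz'
    exact hy (cyl_trans hz' (cyl_symm hz))
  · have : cy v = ∅ := by
      ext y
      simp only [mem_empty_iff_false, iff_false]
      exact fun h => hv ⟨y, h⟩
    rw [this]
    exact isClopen_empty

lemma cy_nonempty (v : List Bool) : (cy v).Nonempty := by
  induction v with
  | nil => exact ⟨fun _ => false, rfl⟩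
  | cons a l ih =>
    obtain ⟨x, hx⟩ := ih
    refine ⟨fun n => if n = l.length then a else x n, ?_⟩
    change res _ (l.length + 1) = a :: l
    rw [res_succ]
    simp only [if_true, List.cons.injEq, true_and]
    have hx' : res x l.length = l := hx
    conv_rhs => rw [← hx']
    rw [res_eq_res]
    intro m hm
    simp [hm.ne]

/-- Analytic sets which are uncountable in every cylinder. -/
theorem sh_of_uncountable {A : Set Om} (hA : AnalyticSet A) (hc : ∀ v, ¬ (A ∩ cy v).Countable) :
    SH A := by
  have hk : ∀ v : List Bool, ∃ k : Om → Om, Continuous k ∧ Injective k ∧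
      ∀ a, k a ∈ A ∧ res (k a) v.length = v := by
    intro v
    obtain ⟨k, h1, h2, h3⟩ := perf (AnalyticSet_inter hA (isClopen_cy v).1.analyticSet) (hc v)
    exact ⟨k, h1, h2, h3⟩
  obtain ⟨H, L, hH, hL, h1, h2, h3⟩ := category_part hA
  have h4 : ∀ B ∈ L, ∃ X : Set Om, A ∩ B ⊆ X ∧ X ⊆ A ∧ Homog X := by
    intro B hB
    exact exists_homog (h2 B hB).1 inter_subset_right inter_subset_left (h2 B hB).2 hk
  choose! X hX1 hX2 hX3 using h4
  refine ⟨H ∪ X '' L, hH.union (hL.image X), ?_, ?_⟩
  · rintro B (hB | ⟨C, hC, rfl⟩)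
    · exact (h1 B hB).1
    · exact hX3 C hC
  · apply Subset.antisymm
    · rintro x ⟨B, (hB | ⟨C, hC, rfl⟩), hx⟩
      · exact (h1 B hB).2 hx
      · exact hX2 C hC hx
    · intro x hx
      rcases h3 hx with ⟨B, hB, hxB⟩ | ⟨B, hB, hxB⟩
      · exact ⟨B, Or.inl hB, hxB⟩
      · exact ⟨X B, Or.inr ⟨B, hB, rfl⟩, hX1 B hB ⟨hx, hxB⟩⟩

/-- Analytic subsets of the Cantor space. -/
theorem sh_analytic {A : Set Om} (hA : AnalyticSet A) : SH A := by
  -- the countable part
  let F : Set Om := {x | ∀ n, ¬ (A ∩ cylinder x n).Countable}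
  have hFc : IsClosed F := by
    rw [← isOpen_compl_iff, isOpen_iff_mem_nhds]
    intro x hx
    simp only [F, mem_compl_iff, mem_ofPred_eq, not_forall, not_not] at hx
    obtain ⟨n, hn⟩ := hx
    refine mem_of_superset ((isOpen_cyl x n).mem_nhds (self_mem_cylinder x n)) ?_
    intro y hy hyF
    have := hyF n
    rw [cyl_eq hy] at this
    exact this hn
  have hAF : (A \ F).Countable := by
    have h1 : A \ F ⊆ ⋃ v ∈ {v : List Bool | (A ∩ cy v).Countable}, A ∩ cy v := by
      rintro x ⟨hx, hxF⟩
      simp only [F, mem_ofPred_eq, not_forall, not_not] at hxF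
      obtain ⟨n, hn⟩ := hxF
      rw [← cy_res] at hn
      refine mem_iUnion₂.2 ⟨res x n, hn, hx, ?_⟩
      rw [cy_res]
      exact self_mem_cylinder x n
    refine Countable.mono h1 ?_
    exact (to_countable _).biUnion fun v hv => hv
  set A' := A ∩ F with hA'
  have hAA : A = A' ∪ (A \ F) := by rw [hA', inter_union_sdiff]
  have hunc : ∀ x ∈ F, ∀ n, ¬ (A' ∩ cylinder x n).Countable := by
    intro x hx n h
    apply hx n
    refine (h.union hAF).mono ?_
    rintro y ⟨hy, hyn⟩
    by_cases hyF : y ∈ F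
    · exact Or.inl ⟨⟨hy, hyF⟩, hyn⟩
    · exact Or.inr ⟨hy, hyF⟩
  rw [hAA]
  refine SH.union ?_ (SH.of_countable hAF)
  rcases A'.eq_empty_or_nonempty with he | hne
  · rw [he]
    exact SH.of_countable countable_empty
  have hA'an : AnalyticSet A' := AnalyticSet_inter hA hFc.analyticSet
  let M : Set Om := closure A'
  have : CompactSpace M := isCompact_iff_compactSpace.1 isClosed_closure.isCompact
  have : Nonempty M := ⟨⟨hne.some, subset_closure hne.some_mem⟩⟩
  have hsmall : ∀ U : Set Om, IsOpen U → (M ∩ U).Nonempty → ¬ (A' ∩ U).Countable := by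
    rintro U hU ⟨z, hz, hzU⟩ h
    obtain ⟨a, haU, ha⟩ := mem_closure_iff.1 hz U hU hzU
    obtain ⟨n, hn⟩ := open_cyl hU haU
    exact hunc a ha.2 n (h.mono (inter_subset_inter_right _ hn))
  obtain ⟨e⟩ := H812R3.CantorChar.cantor_char (Z := M) Subtype.val continuous_subtype_val
    Subtype.val_injective (by
      intro z U hU hzU
      obtain ⟨O, hO, rfl⟩ := isOpen_induced_iff.1 hU
      by_contra hcon
      push Not at hcon
      apply hsmall O hO ⟨z.1, z.2, hzU⟩
      refine (countable_singleton z.1).mono ?_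
      rintro a ⟨ha, haO⟩
      have h1 := hcon ⟨a, subset_closure ha⟩ haO
      rw [mem_singleton_iff, ← h1])
  let g : Om → Om := fun x => (e.symm x : M).1
  have hg : IsEmbedding g := IsEmbedding.subtypeVal.comp e.symm.isEmbedding
  have hgr : range g = M := by
    ext x
    constructor
    · rintro ⟨y, rfl⟩
      exact (e.symm y).2
    · intro hx
      exact ⟨e ⟨x, hx⟩, by simp [g]⟩
  have h1 : g '' (g ⁻¹' A') = A' := by
    rw [image_preimage_eq_inter_range, hgr]
    exact inter_eq_left.2 subset_closure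
  rw [← h1]
  refine SH.image hg (sh_of_uncountable (hA'an.preimage hg.continuous) ?_)
  intro v hcount
  obtain ⟨x, hx⟩ := cy_nonempty v
  have hop : IsOpen (e.symm '' cy v) := e.symm.isOpenMap _ (isClopen_cy v).2
  obtain ⟨O, hO, hOe⟩ := isOpen_induced_iff.1 hop
  have hne' : (M ∩ O).Nonempty := by
    refine ⟨g x, (e.symm x).2, ?_⟩
    have : e.symm x ∈ Subtype.val ⁻¹' O := by
      rw [hOe]
      exact mem_image_of_mem _ hx
    exact this
  apply hsmall O hO hne'
  refine (hcount.image g).mono ?_
  rintro a ⟨ha, haO⟩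
  have haM : a ∈ M := subset_closure ha
  have h2 : (⟨a, haM⟩ : M) ∈ Subtype.val ⁻¹' O := haO
  rw [hOe] at h2
  obtain ⟨y, hy, hya⟩ := h2
  have h3 : g y = a := congrArg Subtype.val hya
  exact ⟨y, ⟨by rw [mem_preimage, h3]; exact ha, hy⟩, h3⟩

end Pool.Agent.H633.SH
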