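import Pool.Agent.H633.SH.Grp
import Pool.Agent.H566W.Ana

/-!
# Analytic sets are countable unions of homogeneous sets, up to closed nowhere dense sets
-/

set_option autoImplicit false

namespace Pool.Agent.H633.SH

open Set Filter Topology PiNat MeasureTheory

/-! ### Sets closed under finite changes -/

open Classical in
/-- the exchange of the points `x` and `y` -/
noncomputable def sw (x y z : Om) : Om :=
  fun i => if ∀ j < i, z j = x j then xor (z i) (xor (x i) (y i)) else z i

lemma sw_agree (x y z : Om) (i : ℕ) : (∀ j < i, sw x y z j = y j) ↔ ∀ j < i, z j = x j := by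
  constructor
  · intro h j
    induction j using Nat.strong_induction_on with
    | _ j ih =>
      intro hj
      have h1 := h j hj
      have h2 : ∀ j' < j, z j' = x j' := fun j' hj' => ih j' hj' (hj'.trans hj)
      simp only [sw, if_pos h2] at h1
      revert h1
      cases z j <;> cases x j <;> cases y j <;> simp
  · intro h j hj
    have h2 : ∀ j' < j, z j' = x j' := fun j' hj' => h j' (hj'.trans hj)
    simp only [sw, if_pos h2, h j hj]
    cases x j <;> cases y j <;> rfl

lemma sw_inv (x y z : Om) : sw y x (sw x y z) = z := by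
  funext i
  by_cases h : ∀ j < i, z j = x j
  · have h1 := (sw_agree x y z i).2 h
    change (if ∀ j < i, sw x y z j = y j then xor (sw x y z i) (xor (y i) (x i))
      else sw x y z i) = z i
    rw [if_pos h1]
    simp only [sw, if_pos h]
    cases z i <;> cases x i <;> cases y i <;> rfl
  · have h1 : ¬ ∀ j < i, sw x y z j = y j := fun h' => h ((sw_agree x y z i).1 h')
    change (if ∀ j < i, sw x y z j = y j then xor (sw x y z i) (xor (y i) (x i))
      else sw x y z i) = z i
    rw [if_neg h1]
    simp only [sw, if_neg h]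

lemma sw_self (x y : Om) : sw x y x = y := by
  funext i
  simp only [sw, implies_true, if_true]
  cases x i <;> cases y i <;> rfl

lemma sw_cyl {x y z z' : Om} {n : ℕ} (h : z' ∈ cylinder z n) :
    sw x y z' ∈ cylinder (sw x y z) n := by
  intro i hi
  have h1 : (∀ j < i, z' j = x j) ↔ ∀ j < i, z j = x j := by
    constructor <;> intro h2 j hj
    · rw [← h j (hj.trans hi)]; exact h2 j hj
    · rw [h j (hj.trans hi)]; exact h2 j hj
  simp only [sw, h1, h i hi]

lemma sw_continuous (x y : Om) : Continuous (sw x y) := by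
  rw [continuous_iff_continuousAt]
  intro z
  refine ((nhds_basis_cyl z).tendsto_iff (nhds_basis_cyl (sw x y z))).2 fun n _ => ?_
  exact ⟨n, trivial, fun z' hz' => sw_cyl hz'⟩

/-- A subset of a cylinder which is closed under finite changes inside the cylinder is
homogeneous. -/
lemma homog_tail {G : Set Om} {c : Om} {n : ℕ} (hG : G ⊆ cylinder c n)
    (h : ∀ z ∈ G, ∀ z' ∈ cylinder c n, {i | z' i ≠ z i}.Finite → z' ∈ G) : Homog G := by
  have key : ∀ x ∈ G, ∀ y ∈ G, ∀ z ∈ G, sw x y z ∈ G := by
    intro x hx y hy z hz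
    by_cases hzx : z = x
    · rw [hzx, sw_self]
      exact hy
    · obtain ⟨k, hk⟩ := Function.ne_iff.1 hzx
      apply h z hz
      · intro i hi
        by_cases h1 : ∀ j < i, z j = x j
        · simp only [sw, if_pos h1, hG hz i hi, hG hx i hi, hG hy i hi]
          cases c i <;> rfl
        · simp only [sw, if_neg h1, hG hz i hi]
      · refine (Set.finite_Iic k).subset ?_
        intro i hi
        by_contra hik
        rw [mem_Iic, not_le] at hik
        apply hi
        have h1 : ¬ ∀ j < i, z j = x j := fun h' => hk (h' k hik)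
        simp only [sw, if_neg h1]
  intro x y
  refine ⟨⟨⟨fun z => ⟨sw x.1 y.1 z.1, key _ x.2 _ y.2 _ z.2⟩,
    fun z => ⟨sw y.1 x.1 z.1, key _ y.2 _ x.2 _ z.2⟩,
    fun z => Subtype.ext (sw_inv _ _ _), fun z => Subtype.ext (sw_inv _ _ _)⟩, ?_, ?_⟩, ?_⟩
  · exact ((sw_continuous x.1 y.1).comp continuous_subtype_val).subtype_mk _
  · exact ((sw_continuous y.1 x.1).comp continuous_subtype_val).subtype_mk _
  · exact Subtype.ext (sw_self _ _)

/-! ### The property of Baire -/

/-- Analytic sets have the property of Baire. -/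
theorem analytic_baire {X : Type*} [TopologicalSpace X] [SecondCountableTopology X] [T2Space X]
    {A : Set X} (hA : AnalyticSet A) :
    ∃ u : Set X, IsOpen u ∧ ∀ᶠ x in residual X, (x ∈ A ↔ x ∈ u) := by
  rw [AnalyticSet] at hA
  rcases hA with rfl | ⟨f, hf, hfr⟩
  · exact ⟨∅, isOpen_empty, Eventually.of_forall fun _ => Iff.rfl⟩
  have h1 : IsMeagre (A \ H566W.Dn A) := H566W.sdiff_Dn A
  have h2 : IsMeagre (H566W.Dn A \ A) := by
    rw [← hfr]
    exact H566W.analytic_bp hf
  have h3 : BaireMeasurableSet (H566W.Dn A) :=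
    ((H566W.Dn_closed A).isOpen_compl.baireMeasurableSet).of_compl
  have h4 : A =ᶠ[residual X] H566W.Dn A := by
    rw [Filter.eventuallyEq_set]
    have h1' : (A \ H566W.Dn A)ᶜ ∈ residual X := h1
    have h2' : (H566W.Dn A \ A)ᶜ ∈ residual X := h2
    filter_upwards [h1', h2'] with x hx1 hx2
    constructor
    · intro hx
      by_contra hc
      exact hx1 ⟨hx, hc⟩
    · intro hx
      by_contra hc
      exact hx2 ⟨hx, hc⟩
  obtain ⟨u, hu, hAu⟩ := (h3.congr h4.symm).residualEq_isOpen
  exact ⟨u, hu, Filter.eventuallyEq_set.1 hAu⟩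

/-- `A` is the union of a countable family of homogeneous subspaces. -/
def SH {X : Type*} [TopologicalSpace X] (A : Set X) : Prop :=
  ∃ H : Set (Set X), H.Countable ∧ (∀ B ∈ H, Homog B) ∧ ⋃₀ H = A

lemma SH.iUnion {X : Type*} [TopologicalSpace X] {ι : Type*} [Countable ι] {A : ι → Set X}
    (h : ∀ i, SH (A i)) : SH (⋃ i, A i) := by
  choose H h1 h2 h3 using h
  refine ⟨⋃ i, H i, countable_iUnion h1, ?_, ?_⟩
  · intro B hB
    obtain ⟨i, hi⟩ := mem_iUnion.1 hB
    exact h2 i B hi
  · rw [sUnion_iUnion]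
    simp only [h3]

lemma SH.sUnion {X : Type*} [TopologicalSpace X] {H : Set (Set X)} (hc : H.Countable)
    (h : ∀ A ∈ H, SH A) : SH (⋃₀ H) := by
  have := hc.to_subtype
  rw [sUnion_eq_iUnion]
  exact SH.iUnion fun A => h A.1 A.2

lemma SH.union {X : Type*} [TopologicalSpace X] {A B : Set X} (hA : SH A) (hB : SH B) :
    SH (A ∪ B) := by
  obtain ⟨H, h1, h2, rfl⟩ := hA
  obtain ⟨G, g1, g2, rfl⟩ := hB
  refine ⟨H ∪ G, h1.union g1, ?_, sUnion_union H G⟩
  rintro C (hC | hC)
  · exact h2 C hC
  · exact g2 C hC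

lemma SH.of_homog {X : Type*} [TopologicalSpace X] {A : Set X} (h : Homog A) : SH A :=
  ⟨{A}, countable_singleton A, fun B hB => by rw [mem_singleton_iff.1 hB]; exact h,
    sUnion_singleton A⟩

lemma homog_singleton {X : Type*} [TopologicalSpace X] (x : X) : Homog ({x} : Set X) := by
  intro y z
  exact ⟨Homeomorph.refl _, Subsingleton.elim _ _⟩

lemma SH.of_countable {X : Type*} [TopologicalSpace X] {A : Set X} (h : A.Countable) : SH A := by
  have := h.to_subtype
  have h2 : A = ⋃ x : A, {x.1} := by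
    ext x
    simp
  rw [h2]
  exact SH.iUnion fun x => SH.of_homog (homog_singleton _)

lemma SH.image {X Y : Type*} [TopologicalSpace X] [TopologicalSpace Y] {g : X → Y}
    (hg : IsEmbedding g) {A : Set X} (h : SH A) : SH (g '' A) := by
  obtain ⟨H, h1, h2, rfl⟩ := h
  refine ⟨(g '' ·) '' H, h1.image _, ?_, ?_⟩
  · rintro _ ⟨B, hB, rfl⟩
    exact (h2 B hB).congr (hg.homeomorphImage B)
  · rw [sUnion_image, image_sUnion]
    simp

/-- the cylinder given by a list -/
def cy (v : List Bool) : Set Om := {x | res x v.length = v}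

lemma cy_res (x : Om) (n : ℕ) : cy (res x n) = cylinder x n := by
  ext y
  change res y (res x n).length = res x n ↔ _
  rw [res_length]
  exact res_iff

/-- the basic set: every finite change inside the cylinder is in all `D n` -/
def Gs (D : ℕ → Set Om) (v : List Bool) : Set Om :=
  {z | z ∈ cy v ∧ ∀ z' ∈ cy v, {i | z' i ≠ z i}.Finite → ∀ n, z' ∈ D n}

lemma homog_Gs (D : ℕ → Set Om) (v : List Bool) : Homog (Gs D v) := by
  by_cases hv : ∃ c, res c v.length = v
  · obtain ⟨c, hc⟩ := hv
    have hcy : cy v = cylinder c v.length := by rw [← cy_res, hc]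
    apply homog_tail (c := c) (n := v.length)
    · rw [← hcy]
      exact fun z hz => hz.1
    · intro z hz z' hz' hfin
      rw [← hcy] at hz'
      refine ⟨hz', fun z'' hz'' hfin' => hz.2 z'' hz'' ?_⟩
      refine (hfin.union hfin').subset ?_
      intro i hi
      by_contra h
      simp only [mem_union, not_or, mem_ofPred_eq, not_not] at h
      exact hi (h.2.trans h.1)
  · intro x
    exact (hv ⟨x.1, x.2.1⟩).elim

/-- The first part of the decomposition. -/
theorem category_part {A : Set Om} (hA : AnalyticSet A) :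
    ∃ H L : Set (Set Om), H.Countable ∧ L.Countable ∧ (∀ B ∈ H, Homog B ∧ B ⊆ A) ∧
      (∀ B ∈ L, IsClosed B ∧ interior B = ∅) ∧ A ⊆ ⋃₀ H ∪ ⋃₀ L := by
  classical
  obtain ⟨u, hu, hAu⟩ := analytic_baire hA
  obtain ⟨t, ht, htG, htd⟩ := mem_residual.1 hAu
  obtain ⟨D, hDo, rfl⟩ := htG.eq_iInter_nat
  have hDd : ∀ n, Dense (D n) := fun n => htd.mono (iInter_subset _ _)
  let χ : Finset ℕ → Om := fun F i => decide (i ∈ F)
  let Lf : Finset ℕ × ℕ → Set Om := fun q => {z | z + χ q.1 ∈ D q.2}ᶜ
  refine ⟨Gs D '' {v | cy v ⊆ u}, range Lf, (to_countable _).image _, countable_range _, ?_, ?_, ?_⟩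
  · rintro _ ⟨v, hv, rfl⟩
    refine ⟨homog_Gs D v, fun z hz => ?_⟩
    have h1 : z ∈ ⋂ n, D n := mem_iInter.2 fun n => hz.2 z hz.1 (by simp) n
    exact (ht h1).2 (hv hz.1)
  · rintro _ ⟨⟨F, n⟩, rfl⟩
    have h1 : Continuous fun z : Om => z + χ F := continuous_id.add continuous_const
    have h2 : IsOpen {z : Om | z + χ F ∈ D n} := (hDo n).preimage h1
    refine ⟨h2.isClosed_compl, ?_⟩
    rw [interior_compl, compl_empty_iff]
    have h3 : Dense {z : Om | z + χ F ∈ D n} :=
      (hDd n).preimage (Homeomorph.addRight (χ F)).isOpenMap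
    exact h3.closure_eq
  · intro z hz
    have hbad : ∀ z' : Om, {i | z' i ≠ z i}.Finite → ∀ n, z' ∉ D n → z ∈ ⋃₀ range Lf := by
      intro z' hfin n hn
      refine mem_sUnion.2 ⟨_, ⟨(hfin.toFinset, n), rfl⟩, ?_⟩
      have h1 : z + χ hfin.toFinset = z' := by
        funext i
        change xor (z i) (decide (i ∈ hfin.toFinset)) = z' i
        by_cases h : z' i = z i
        · have : i ∉ hfin.toFinset := by simp [h]
          rw [decide_eq_false this, h]
          cases z i <;> rfl
        · have : i ∈ hfin.toFinset := by simp [h]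
          rw [decide_eq_true this]
          revert h
          cases z' i <;> cases z i <;> simp
      change z + χ hfin.toFinset ∉ D n
      rw [h1]
      exact hn
    by_cases hzu : z ∈ u
    · obtain ⟨n, hn⟩ := open_cyl hu hzu
      rw [← cy_res] at hn
      by_cases hzG : z ∈ Gs D (res z n)
      · exact Or.inl (mem_sUnion.2 ⟨_, ⟨_, hn, rfl⟩, hzG⟩)
      · right
        have hzc : z ∈ cy (res z n) := by
          rw [cy_res]
          exact self_mem_cylinder _ _
        have : ∃ z' ∈ cy (res z n), {i | z' i ≠ z i}.Finite ∧ ∃ m, z' ∉ D m := by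
          by_contra hcon
          push Not at hcon
          exact hzG ⟨hzc, hcon⟩
        obtain ⟨z', -, hfin, m, hm⟩ := this
        exact hbad z' hfin m hm
    · right
      have h1 : z ∉ ⋂ n, D n := fun h => hzu ((ht h).1 hz)
      rw [mem_iInter, not_forall] at h1
      obtain ⟨n, hn⟩ := h1
      exact hbad z (by simp) n hn

end Pool.Agent.H633.SH
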