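import Pool.Agent.H633.SH.Ana

/-!
# Zero-dimensional subsets of metrizable analytic spaces
-/

set_option autoImplicit false

namespace Pool.Agent.H633.SH

open Set Filter Topology PiNat MeasureTheory TopologicalSpace

/-- the clopen sets form a basis -/
def ZeroDim (Y : Type*) [TopologicalSpace Y] : Prop := IsTopologicalBasis {U : Set Y | IsClopen U}

/-- A zero-dimensional subset of a metrizable space is contained in a zero-dimensional `Gδ` set. -/
theorem exists_gdelta {X : Type*} [MetricSpace X] [SecondCountableTopology X] {Z : Set X}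
    (hZ : ZeroDim Z) : ∃ G : Set X, Z ⊆ G ∧ IsGδ G ∧ ZeroDim G := by
  obtain ⟨S, hS1, hS2, hS3⟩ := hZ.exists_countable
  have : Countable S := hS2.to_subtype
  have hcn : CompletelyNormalSpace X :=
    completelyNormalSpace_iff_forall_isOpen_normalSpace.2 fun s _ => inferInstance
  -- separating open sets
  have hsep : ∀ C : S, ∃ V W : Set X, IsOpen V ∧ IsOpen W ∧ Subtype.val '' C.1 ⊆ V ∧
      Subtype.val '' (C.1)ᶜ ⊆ W ∧ Disjoint V W := by
    intro C
    have hC : IsClopen C.1 := hS1 C.2
    have key : ∀ D : Set Z, IsOpen D → Disjoint (Subtype.val '' D) (closure (Subtype.val '' Dᶜ)) := by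
      intro D hD
      obtain ⟨O, hO, rfl⟩ := isOpen_induced_iff.1 hD
      rw [Set.disjoint_left]
      rintro _ ⟨z, hz, rfl⟩ hcl
      obtain ⟨_, hy, y, hyD, rfl⟩ := mem_closure_iff.1 hcl O hO hz
      exact hyD hy
    have h1 := key _ hC.2
    have h2 := key _ hC.1.isOpen_compl
    rw [compl_compl] at h2
    exact separatedNhds_iff_disjoint.2 (completely_normal h2.symm h1)
  choose V W hV hW hCV hCW hVW using hsep
  let Vk : S × ℕ → Set X := fun q =>
    V q.1 ∩ Metric.thickening (1 / ((q.2 : ℝ) + 1)) (Subtype.val '' q.1.1)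
  have hVk : ∀ q, IsOpen (Vk q) := fun q => (hV q.1).inter Metric.isOpen_thickening
  have hpos : ∀ k : ℕ, (0 : ℝ) < 1 / ((k : ℝ) + 1) := fun k => by positivity
  let G : Set X := (⋂ q : S × ℕ, (Vk q ∪ W q.1)) ∩
    ⋂ m : ℕ, ⋃ q ∈ {q : S × ℕ | ∃ x, Vk q ⊆ Metric.ball x (1 / ((m : ℝ) + 1))}, Vk q
  refine ⟨G, ?_, ?_, ?_⟩
  · intro z hz
    refine ⟨mem_iInter.2 fun q => ?_, mem_iInter.2 fun m => ?_⟩
    · by_cases hq : (⟨z, hz⟩ : Z) ∈ q.1.1
      · have h1 : z ∈ Subtype.val '' q.1.1 := ⟨_, hq, rfl⟩
        exact Or.inl ⟨hCV _ h1, Metric.self_subset_thickening (hpos _) _ h1⟩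
      · exact Or.inr (hCW _ ⟨_, hq, rfl⟩)
    · have hop : IsOpen {y : Z | dist y.1 z < 1 / ((m : ℝ) + 1) / 2} :=
        isOpen_lt (continuous_subtype_val.dist continuous_const) continuous_const
      obtain ⟨C, hC, hzC, hCs⟩ := hS3.exists_subset_of_mem_open
        (show (⟨z, hz⟩ : Z) ∈ {y : Z | dist y.1 z < 1 / ((m : ℝ) + 1) / 2} by
          simp only [mem_ofPred_eq, dist_self]
          have := hpos m
          positivity) hop
      obtain ⟨k, hk⟩ := exists_nat_one_div_lt (K := ℝ) (show (0 : ℝ) < 1 / ((m : ℝ) + 1) / 2 by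
          have := hpos m
          positivity)
      have h1 : z ∈ Subtype.val '' C := ⟨_, hzC, rfl⟩
      refine mem_iUnion₂.2 ⟨(⟨C, hC⟩, k), ⟨z, ?_⟩, hCV ⟨C, hC⟩ h1,
        Metric.self_subset_thickening (hpos _) _ h1⟩
      rintro x ⟨-, hx⟩
      obtain ⟨_, ⟨c, hc, rfl⟩, hxc⟩ := Metric.mem_thickening_iff.1 hx
      have h2 : dist c.1 z < 1 / ((m : ℝ) + 1) / 2 := hCs hc
      rw [Metric.mem_ball]
      have h3 := dist_triangle x c.1 z
      simp only at hxc
      linarith
  · refine IsGδ.inter ?_ ?_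
    · exact IsGδ.iInter fun q => ((hVk q).union (hW q.1)).isGδ
    · exact IsGδ.iInter fun m => (isOpen_biUnion fun q _ => hVk q).isGδ
  · refine isTopologicalBasis_of_isOpen_of_nhds (fun U hU => hU.2) ?_
    intro z U hzU hU
    obtain ⟨O, hO, rfl⟩ := isOpen_induced_iff.1 hU
    obtain ⟨ε, hε, hεO⟩ := Metric.isOpen_iff.1 hO z.1 hzU
    obtain ⟨m, hm⟩ := exists_nat_one_div_lt (K := ℝ) (half_pos hε)
    obtain ⟨q, ⟨x, hx⟩, hzq⟩ := mem_iUnion₂.1 (mem_iInter.1 z.2.2 m)
    refine ⟨Subtype.val ⁻¹' Vk q, ⟨?_, (hVk q).preimage continuous_subtype_val⟩, hzq, ?_⟩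
    · have : (Subtype.val ⁻¹' Vk q : Set G) = (Subtype.val ⁻¹' W q.1)ᶜ := by
        ext y
        constructor
        · intro h1 h2
          exact Set.disjoint_left.1 (hVW q.1) h1.1 h2
        · intro h1
          rcases mem_iInter.1 y.2.1 q with h2 | h2
          · exact h2
          · exact absurd h2 h1
      rw [this]
      exact ((hW q.1).preimage continuous_subtype_val).isClosed_compl
    · intro y hy
      apply hεO
      have h1 := Metric.mem_ball.1 (hx hy)
      have h2 := Metric.mem_ball.1 (hx hzq)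
      have h3 := dist_triangle_right y.1 z.1 x
      rw [Metric.mem_ball]
      linarith

/-- A zero-dimensional separable metrizable space embeds into the Cantor space. -/
theorem exists_embedding {Y : Type*} [TopologicalSpace Y] [T0Space Y] [SecondCountableTopology Y]
    (hY : ZeroDim Y) : ∃ e : Y → Om, IsEmbedding e := by
  classical
  obtain ⟨S, hS1, hS2, hS3⟩ := hY.exists_countable
  obtain ⟨f, hf⟩ := (hS2.insert ∅).exists_eq_range (insert_nonempty _ _)
  have hcl : ∀ n, IsClopen (f n) := by
    intro n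
    have h1 : f n ∈ insert ∅ S := by rw [hf]; exact mem_range_self n
    rcases h1 with h1 | h1
    · rw [h1]; exact isClopen_empty
    · exact hS1 h1
  have hb : ∀ (y : Y) (U : Set Y), IsOpen U → y ∈ U → ∃ n, y ∈ f n ∧ f n ⊆ U := by
    intro y U hU hy
    obtain ⟨C, hC, hyC, hCU⟩ := hS3.exists_subset_of_mem_open hy hU
    have h1 : C ∈ range f := by rw [← hf]; exact Or.inr hC
    obtain ⟨n, rfl⟩ := h1
    exact ⟨n, hyC, hCU⟩
  let e : Y → Om := fun y n => decide (y ∈ f n)
  have hcont : Continuous e := by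
    refine continuous_pi fun n => ?_
    have : IsLocallyConstant (fun y : Y => decide (y ∈ f n)) := by
      rw [IsLocallyConstant.iff_eventually_eq]
      intro y
      by_cases hy : y ∈ f n
      · filter_upwards [(hcl n).2.mem_nhds hy] with z hz
        simp [hy, hz]
      · filter_upwards [(hcl n).1.isOpen_compl.mem_nhds hy] with z hz
        have : z ∉ f n := hz
        simp [hy, this]
    exact this.continuous
  have hin : IsInducing e := by
    rw [isInducing_iff_nhds]
    intro y
    apply le_antisymm (hcont.tendsto y).le_comap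
    intro U hU
    obtain ⟨O, hOU, hO, hyO⟩ := mem_nhds_iff.1 hU
    obtain ⟨n, hyn, hn⟩ := hb y O hO hyO
    rw [mem_comap]
    refine ⟨{x | x n = true}, ?_, ?_⟩
    · apply IsOpen.mem_nhds
      · have h1 : IsOpen ((fun x : Om => x n) ⁻¹' {true}) :=
          (isOpen_discrete _).preimage (continuous_apply n)
        exact h1
      · simp [e, hyn]
    · intro z hz
      apply hOU
      apply hn
      simpa [e] using hz
  exact ⟨e, hin, hin.injective⟩

lemma SH.preimage {X Y : Type*} [TopologicalSpace X] [TopologicalSpace Y] {g : X → Y}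
    (hg : IsEmbedding g) {A : Set Y} (hA : A ⊆ range g) (h : SH A) : SH (g ⁻¹' A) := by
  obtain ⟨H, h1, h2, rfl⟩ := h
  refine ⟨(g ⁻¹' ·) '' H, h1.image _, ?_, ?_⟩
  · rintro _ ⟨B, hB, rfl⟩
    have h3 : g '' (g ⁻¹' B) = B := by
      rw [image_preimage_eq_inter_range]
      exact inter_eq_left.2 ((subset_sUnion_of_mem hB).trans hA)
    have h4 : Homog (g '' (g ⁻¹' B)) := by rw [h3]; exact h2 B hB
    exact h4.congr (hg.homeomorphImage (g ⁻¹' B)).symm
  · rw [sUnion_image, preimage_sUnion]

/-- Zero-dimensional analytic subsets of metrizable spaces. -/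
theorem sh_zeroDim {X : Type*} [TopologicalSpace X] [MetrizableSpace X] {G : Set X}
    (hG : AnalyticSet G) (hz : ZeroDim G) : SH G := by
  rw [AnalyticSet] at hG
  rcases hG with rfl | ⟨f, hf, hfG⟩
  · exact SH.of_countable countable_empty
  let f' : (ℕ → ℕ) → G := fun x => ⟨f x, hfG ▸ mem_range_self x⟩
  have hf' : Continuous f' := hf.subtype_mk _
  have hsurj : Function.Surjective f' := by
    rintro ⟨y, hy⟩
    rw [← hfG] at hy
    obtain ⟨x, rfl⟩ := hy
    exact ⟨x, rfl⟩
  have h1 : SeparableSpace G := hsurj.denseRange.separableSpace hf'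
  let _ := metrizableSpaceMetric G
  have h2 : SecondCountableTopology G := UniformSpace.secondCountable_of_separable G
  obtain ⟨e, he⟩ := exists_embedding hz
  have h3 : AnalyticSet (range e) := by
    rw [AnalyticSet]
    right
    exact ⟨e ∘ f', he.continuous.comp hf', hsurj.range_comp e⟩
  have h4 : SH (e ⁻¹' range e) := SH.preimage he subset_rfl (sh_analytic h3)
  rw [preimage_range] at h4
  have h5 := SH.image (g := (Subtype.val : G → X)) IsEmbedding.subtypeVal h4
  rwa [image_univ, Subtype.range_coe] at h5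

/-- Countable unions of zero-dimensional subspaces. -/
theorem sh_iUnion {X : Type*} [TopologicalSpace X] [MetrizableSpace X]
    (hX : AnalyticSet (univ : Set X)) {Z : ℕ → Set X} (hZ : ∀ n, ZeroDim (Z n))
    (hU : ⋃ n, Z n = univ) : SH (univ : Set X) := by
  rw [AnalyticSet] at hX
  rcases hX with hX | ⟨f, hf, hfX⟩
  · rw [hX]
    exact SH.of_countable countable_empty
  have hsurj : Function.Surjective f := range_eq_univ.1 hfX
  have h1 : SeparableSpace X := hsurj.denseRange.separableSpace hf
  let _ := metrizableSpaceMetric X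
  have h2 : SecondCountableTopology X := UniformSpace.secondCountable_of_separable X
  have hp : PolishSpace (ℕ → ℕ) := ⟨⟩
  have hopen : ∀ O : Set X, IsOpen O → AnalyticSet O := by
    intro O hO
    have h3 := (hO.preimage hf).analyticSet_image hf
    rwa [image_preimage_eq O hsurj] at h3
  choose G hG1 hG2 hG3 using fun n => exists_gdelta (hZ n)
  have h4 : ∀ n, SH (G n) := by
    intro n
    obtain ⟨O, hO, hGO⟩ := (hG2 n).eq_iInter_nat
    refine sh_zeroDim ?_ (hG3 n)
    rw [hGO]
    exact AnalyticSet.iInter fun k => hopen _ (hO k)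
  have h5 : (univ : Set X) = ⋃ n, G n := by
    apply (Subset.antisymm (subset_univ _) ?_).symm
    rw [← hU]
    exact iUnion_mono hG1
  rw [h5]
  exact SH.iUnion h4

end Pool.Agent.H633.SH
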