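import Mathlib

/-!
# Gluing: copies of subsets of the Cantor space inside analytic sets
-/

set_option autoImplicit false

namespace Pool.Agent.H633.SH

open Set Filter Topology PiNat

/-- the Cantor space -/
abbrev Om : Type := ℕ → Bool

/-! ### Cylinders -/

lemma mem_cyl {x y : Om} {n : ℕ} : y ∈ cylinder x n ↔ ∀ i < n, y i = x i := mem_cylinder_iff

lemma cyl_symm {x y : Om} {n : ℕ} (h : y ∈ cylinder x n) : x ∈ cylinder y n :=
  fun i hi => (h i hi).symm

lemma cyl_trans {x y z : Om} {n : ℕ} (h : y ∈ cylinder x n) (h' : z ∈ cylinder y n) :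
    z ∈ cylinder x n := fun i hi => (h' i hi).trans (h i hi)

lemma cyl_mono {x y : Om} {m n : ℕ} (hmn : m ≤ n) (h : y ∈ cylinder x n) : y ∈ cylinder x m :=
  fun i hi => h i (hi.trans_le hmn)

lemma cyl_eq {x y : Om} {n : ℕ} (h : y ∈ cylinder x n) : cylinder y n = cylinder x n := by
  ext z
  exact ⟨fun hz => cyl_trans h hz, fun hz => cyl_trans (cyl_symm h) hz⟩

lemma res_iff {x y : Om} {n : ℕ} : res y n = res x n ↔ y ∈ cylinder x n := by
  rw [res_eq_res, mem_cyl]

lemma isOpen_cyl (x : Om) (n : ℕ) : IsOpen (cylinder x n) := isOpen_cylinder _ x n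

lemma nhds_basis_cyl (x : Om) : (𝓝 x).HasBasis (fun _ : ℕ => True) (cylinder x) := by
  refine ⟨fun s => ?_⟩
  constructor
  · intro hs
    obtain ⟨_, ⟨y, n, rfl⟩, hy, hys⟩ := (isTopologicalBasis_cylinders _).mem_nhds_iff.1 hs
    refine ⟨n, trivial, ?_⟩
    rw [cyl_eq hy]
    exact hys
  · rintro ⟨n, -, hn⟩
    exact mem_of_superset ((isOpen_cyl x n).mem_nhds (self_mem_cylinder x n)) hn

lemma open_cyl {U : Set Om} (hU : IsOpen U) {x : Om} (hx : x ∈ U) : ∃ n, cylinder x n ⊆ U := by
  obtain ⟨n, -, hn⟩ := (nhds_basis_cyl x).mem_iff.1 (hU.mem_nhds hx)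
  exact ⟨n, hn⟩

lemma fwd {f : Om → Om} (hf : Continuous f) (x : Om) (m : ℕ) :
    ∃ M, ∀ x' ∈ cylinder x M, f x' ∈ cylinder (f x) m := by
  have h := (hf.continuousAt (x := x)).eventually ((isOpen_cyl (f x) m).mem_nhds
    (self_mem_cylinder (f x) m))
  obtain ⟨M, -, hM⟩ := (nhds_basis_cyl x).eventually_iff.1 h
  exact ⟨M, hM⟩

lemma bwd {f : Om → Om} (hf : Continuous f) (hi : Function.Injective f) (x : Om) (m : ℕ) :
    ∃ M, ∀ x', f x' ∈ cylinder (f x) M → x' ∈ cylinder x m := by
  have he : IsEmbedding f := (hf.isClosedEmbedding hi).isEmbedding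
  have h : cylinder x m ∈ 𝓝 x := (isOpen_cyl x m).mem_nhds (self_mem_cylinder x m)
  rw [he.isInducing.nhds_eq_comap, ((nhds_basis_cyl (f x)).comap f).mem_iff] at h
  obtain ⟨M, -, hM⟩ := h
  exact ⟨M, fun x' hx' => hM hx'⟩

lemma isEmbedding_of {W : Set Om} {φ : W → Om}
    (h1 : ∀ (w : W) (m : ℕ), ∃ M, ∀ w' : W, w'.1 ∈ cylinder w.1 M → φ w' ∈ cylinder (φ w) m)
    (h2 : ∀ (w : W) (m : ℕ), ∃ M, ∀ w' : W, φ w' ∈ cylinder (φ w) M → w'.1 ∈ cylinder w.1 m) :
    IsEmbedding φ := by
  have hin : IsInducing φ := by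
    rw [isInducing_iff_nhds]
    intro w
    have b1 : (𝓝 w).HasBasis (fun _ : ℕ => True) (fun m => {w' : W | w'.1 ∈ cylinder w.1 m}) := by
      rw [nhds_subtype_eq_comap]
      exact (nhds_basis_cyl w.1).comap _
    have b2 : (comap φ (𝓝 (φ w))).HasBasis (fun _ : ℕ => True)
        (fun m => {w' : W | φ w' ∈ cylinder (φ w) m}) := (nhds_basis_cyl (φ w)).comap _
    apply le_antisymm
    · rw [b1.le_basis_iff b2]
      intro m _
      obtain ⟨M, hM⟩ := h1 w m
      exact ⟨M, trivial, hM⟩
    · rw [b2.le_basis_iff b1]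
      intro m _
      obtain ⟨M, hM⟩ := h2 w m
      exact ⟨M, trivial, hM⟩
  refine ⟨hin, ?_⟩
  intro w w' h
  apply Subtype.ext
  funext i
  obtain ⟨M, hM⟩ := h2 w (i + 1)
  have := hM w' (by rw [h]; exact self_mem_cylinder _ _)
  exact (this i (Nat.lt_succ_self i)).symm

/-! ### The length of the shortest prefix that misses a closed set -/

/-- the length of the shortest prefix that misses the set `F` -/
noncomputable def ell (F : Set Om) (x : Om) : ℕ := sInf {n | Disjoint (cylinder x n) F}

lemma ell_disj {F : Set Om} (hF : IsClosed F) {x : Om} (hx : x ∉ F) :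
    Disjoint (cylinder x (ell F x)) F := by
  have : {n | Disjoint (cylinder x n) F}.Nonempty := by
    obtain ⟨n, hn⟩ := open_cyl hF.isOpen_compl hx
    exact ⟨n, disjoint_left.2 fun z hz hzF => hn hz hzF⟩
  exact Nat.sInf_mem this

lemma ell_min {F : Set Om} {x : Om} {n : ℕ} (hn : n < ell F x) : ∃ z ∈ F, z ∈ cylinder x n := by
  have h := Nat.notMem_of_lt_sInf hn
  rw [mem_ofPred_eq, not_disjoint_iff] at h
  obtain ⟨z, h1, h2⟩ := h
  exact ⟨z, h2, h1⟩

lemma ell_le {F : Set Om} {x : Om} {n : ℕ} (h : Disjoint (cylinder x n) F) : ell F x ≤ n :=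
  Nat.sInf_le h

lemma ell_congr {F : Set Om} (hF : IsClosed F) {x y : Om} (hx : x ∉ F)
    (hy : y ∈ cylinder x (ell F x)) : ell F y = ell F x := by
  have h1 : Disjoint (cylinder y (ell F x)) F := by
    rw [cyl_eq hy]
    exact ell_disj hF hx
  have hyF : y ∉ F := fun h => disjoint_left.1 h1 (self_mem_cylinder y _) h
  apply le_antisymm (ell_le h1)
  apply ell_le
  have h2 : y ∈ cylinder x (ell F y) := cyl_mono (ell_le h1) hy
  rw [← cyl_eq h2]
  exact ell_disj hF hyF

lemma notMem_of_cyl {F : Set Om} (hF : IsClosed F) {x y : Om} (hx : x ∉ F)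
    (hy : y ∈ cylinder x (ell F x)) : y ∉ F := fun h => disjoint_left.1 (ell_disj hF hx) hy h

/-! ### Coding -/

/-- the sequence `1^e 0 w` -/
def J (e : ℕ) (w : Om) : Om := fun n => if n < e then true else if n = e then false else w (n - e - 1)

lemma J_fwd {e m : ℕ} {w w' : Om} (h : w' ∈ cylinder w m) : J e w' ∈ cylinder (J e w) m := by
  intro i hi
  unfold J
  split_ifs
  · rfl
  · rfl
  · exact h _ (by omega)

lemma J_bwd {e e' m : ℕ} {w w' : Om} (h : J e' w' ∈ cylinder (J e w) (e + 1 + m)) :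
    e' = e ∧ w' ∈ cylinder w m := by
  have he : e' = e := by
    rcases lt_trichotomy e' e with h1 | h1 | h1
    · exfalso
      have h2 := h e' (by omega)
      simp [J, h1] at h2
    · exact h1
    · exfalso
      have h2 := h e (by omega)
      simp [J, h1] at h2
  subst he
  refine ⟨rfl, fun n hn => ?_⟩
  have h2 := h (e' + 1 + n) (by omega)
  have h3 : ¬ (e' + 1 + n < e') := by omega
  have h4 : ¬ (e' + 1 + n = e') := by omega
  have h5 : e' + 1 + n - e' - 1 = n := by omega
  simpa [J, h3, h4, h5] using h2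

lemma enc_large (m : ℕ) : ∃ B, ∀ p : List Bool, B ≤ p.length → m ≤ Encodable.encode p := by
  have h : {p : List Bool | Encodable.encode p < m}.Finite :=
    (Set.finite_Iio m).preimage Encodable.encode_injective.injOn
  obtain ⟨B, hB⟩ := (h.image List.length).bddAbove
  refine ⟨B + 1, fun p hp => ?_⟩
  by_contra hlt
  have := hB (mem_image_of_mem List.length (show p ∈ {p : List Bool | _} from not_le.1 hlt))
  omega

lemma len_large (m : ℕ) : ∃ B, ∀ p : List Bool, B ≤ Encodable.encode p → m ≤ p.length := by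
  have h : {p : List Bool | p.length < m}.Finite := List.finite_length_lt Bool m
  obtain ⟨B, hB⟩ := (h.image Encodable.encode).bddAbove
  refine ⟨B + 1, fun p hp => ?_⟩
  by_contra hlt
  have := hB (mem_image_of_mem Encodable.encode (show p ∈ {p : List Bool | _} from not_le.1 hlt))
  omega

/-! ### The gluing lemma -/

theorem glue {W Y L A : Set Om} {i : Om → Om} (hi : Continuous i) (hinj : Function.Injective i)
    (hY : Y.Nonempty) (hW : i '' Y ⊆ W) (hWC : W ∩ closure (i '' Y) ⊆ i '' Y) (hL : IsClosed L)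
    (hYL : Y ⊆ L) (hYA : Y ⊆ A) (hLi : interior L = ∅)
    (hA : ∀ v : List Bool, ∃ k : Om → Om, Continuous k ∧ Function.Injective k ∧
      ∀ a, k a ∈ A ∧ res (k a) v.length = v) :
    ∃ φ : W → Om, IsEmbedding φ ∧ Y ⊆ range φ ∧ range φ ⊆ A := by
  classical
  set C := closure (i '' Y) with hCdef
  have hC : IsClosed C := isClosed_closure
  let p : Om → List Bool := fun w => res w (ell C w)
  have hplen : ∀ w, (p w).length = ell C w := fun w => res_length _ _
  -- points of `Y` close to the pieces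
  have hy : ∀ q : List Bool, ∃ y ∈ Y, ∀ w, w ∉ C → p w = q → i y ∈ cylinder w (q.length - 1) := by
    intro q
    by_cases hq : ∃ w, w ∉ C ∧ p w = q ∧ 0 < ell C w
    · obtain ⟨w, hw, hwq, hpos⟩ := hq
      have hlt : ell C w - 1 < ell C w := by omega
      obtain ⟨z, hz, hzw⟩ := ell_min hlt
      obtain ⟨_, hx1, y, hyY, rfl⟩ := mem_closure_iff.1 hz _ (isOpen_cyl w (ell C w - 1)) hzw
      refine ⟨y, hyY, fun w' hw' hwq' => ?_⟩
      have h1 : (p w').length = (p w).length := by rw [hwq, hwq']
      rw [hplen, hplen] at h1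
      have h2 : w' ∈ cylinder w (ell C w) := by
        rw [← res_iff, ← h1]
        rw [h1]
        have : p w' = p w := by rw [hwq, hwq']
        have h3 : p w' = res w' (ell C w) := by
          change res w' (ell C w') = _
          rw [h1]
        rw [← h3, this]
      have h4 : q.length = ell C w := by rw [← hwq, hplen]
      rw [h4]
      exact cyl_trans (cyl_symm (cyl_mono (Nat.sub_le _ _) h2)) hx1
    · obtain ⟨y, hyY⟩ := hY
      refine ⟨y, hyY, fun w hw hwq => ?_⟩
      have h1 : ell C w = 0 := by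
        by_contra h
        exact hq ⟨w, hw, hwq, Nat.pos_of_ne_zero h⟩
      have h4 : q.length = 0 := by rw [← hwq, hplen, h1]
      rw [h4]
      simp
  choose y hyY hyw using hy
  -- points outside `L` close to the points of `Y`
  have hz : ∀ q : List Bool, ∃ z, z ∉ L ∧ z ∈ cylinder (y q) (Encodable.encode q) := by
    intro q
    by_contra h
    push Not at h
    have h1 : cylinder (y q) (Encodable.encode q) ⊆ L := by
      intro z hz
      by_contra hzL
      exact h z hzL hz
    have h2 := (isOpen_cyl (y q) (Encodable.encode q)).subset_interior_iff.2 h1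
    rw [hLi] at h2
    exact h2 (self_mem_cylinder _ _)
  choose z hzL hzy using hz
  choose K hKc hKi hK using hA
  let v : List Bool → List Bool := fun q => res (z q) (ell L (z q))
  have hvlen : ∀ q, (v q).length = ell L (z q) := fun q => res_length _ _
  let ψ : Om → Om := fun w => K (v (p w)) (J (Encodable.encode (p w)) w)
  have hψz : ∀ w, ψ w ∈ cylinder (z (p w)) (ell L (z (p w))) := by
    intro w
    have h1 := (hK (v (p w)) (J (Encodable.encode (p w)) w)).2
    rw [hvlen] at h1
    exact res_iff.1 h1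
  have hψL : ∀ w, ψ w ∉ L := fun w => notMem_of_cyl hL (hzL _) (hψz w)
  have hψell : ∀ w, ell L (ψ w) = ell L (z (p w)) := fun w => ell_congr hL (hzL _) (hψz w)
  have hψv : ∀ w, res (ψ w) (ell L (ψ w)) = v (p w) := by
    intro w
    rw [hψell]
    exact res_iff.2 (hψz w)
  -- the length of `v q` is more than the code of `q`
  have hvlong : ∀ q, Encodable.encode q < ell L (z q) := by
    intro q
    by_contra h
    push Not at h
    exact notMem_of_cyl hL (hzL q) (cyl_mono h (cyl_symm (hzy q))) (hYL (hyY q))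
  have hψy : ∀ w, ψ w ∈ cylinder (y (p w)) (Encodable.encode (p w)) := by
    intro w
    exact cyl_trans (hzy _) (cyl_mono (hvlong _).le (hψz w))
  -- the map
  let φ : W → Om := fun w => if w.1 ∈ C then Function.invFun i w.1 else ψ w.1
  have hφ1 : ∀ (w : W), w.1 ∈ C → ∃ u ∈ Y, w.1 = i u ∧ φ w = u := by
    intro w hw
    obtain ⟨u, hu, hu'⟩ := hWC ⟨w.2, hw⟩
    refine ⟨u, hu, hu'.symm, ?_⟩
    simp only [φ, if_pos hw]
    rw [← hu']
    exact Function.leftInverse_invFun hinj u
  have hφ2 : ∀ (w : W), w.1 ∉ C → φ w = ψ w.1 := by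
    intro w hw
    simp only [φ, if_neg hw]
  refine ⟨φ, isEmbedding_of ?_ ?_, ?_, ?_⟩
  · -- continuity
    intro w0 m
    by_cases hw0 : w0.1 ∈ C
    · obtain ⟨u, hu, hwu, hφu⟩ := hφ1 w0 hw0
      obtain ⟨M1, hM1⟩ := bwd hi hinj u m
      obtain ⟨B, hB⟩ := enc_large m
      refine ⟨max M1 B, fun w hw => ?_⟩
      rw [hφu]
      by_cases hwC : w.1 ∈ C
      · obtain ⟨u', hu', hwu', hφu'⟩ := hφ1 w hwC
        rw [hφu']
        apply hM1
        rw [← hwu, ← hwu']
        exact cyl_mono (le_max_left _ _) hw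
      · rw [hφ2 w hwC]
        have hlt : max M1 B < ell C w.1 := by
          by_contra h
          push Not at h
          exact notMem_of_cyl hC hwC (cyl_mono h (cyl_symm hw)) hw0
        have h1 : m ≤ Encodable.encode (p w.1) := by
          apply hB
          rw [hplen]
          exact ((le_max_right _ _).trans_lt hlt).le
        have h2 : y (p w.1) ∈ cylinder u m := by
          apply hM1
          rw [← hwu]
          have h3 := hyw (p w.1) w.1 hwC rfl
          rw [hplen] at h3
          have h4 : i (y (p w.1)) ∈ cylinder w.1 M1 := by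
            refine cyl_mono ?_ h3
            have := le_max_left M1 B
            omega
          exact cyl_trans (cyl_mono (le_max_left _ _) hw) h4
        exact cyl_trans h2 (cyl_mono h1 (hψy w.1))
    · rw [hφ2 w0 hw0]
      obtain ⟨M, hM⟩ := fwd (hKc (v (p w0.1))) (J (Encodable.encode (p w0.1)) w0.1) m
      refine ⟨max M (ell C w0.1), fun w hw => ?_⟩
      have h1 : w.1 ∈ cylinder w0.1 (ell C w0.1) := cyl_mono (le_max_right _ _) hw
      have h2 : w.1 ∉ C := notMem_of_cyl hC hw0 h1
      have h3 : p w.1 = p w0.1 := by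
        change res w.1 (ell C w.1) = res w0.1 (ell C w0.1)
        rw [ell_congr hC hw0 h1]
        exact res_iff.2 h1
      rw [hφ2 w h2]
      change K (v (p w.1)) (J (Encodable.encode (p w.1)) w.1) ∈ _
      rw [h3]
      exact hM _ (J_fwd (cyl_mono (le_max_left _ _) hw))
  · -- continuity of the inverse
    intro w0 m
    by_cases hw0 : w0.1 ∈ C
    · obtain ⟨u, hu, hwu, hφu⟩ := hφ1 w0 hw0
      obtain ⟨M1, hM1⟩ := fwd hi u m
      obtain ⟨B, hB⟩ := len_large (m + 1)
      -- a bound for the length of `v q` for codes less than `m'`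
      let m' := max M1 B
      have hfin : {q : List Bool | Encodable.encode q < m'}.Finite :=
        (Set.finite_Iio m').preimage Encodable.encode_injective.injOn
      obtain ⟨B', hB'⟩ := (hfin.image (fun q => ell L (z q))).bddAbove
      refine ⟨max M1 B', fun w hw => ?_⟩
      rw [hφu] at hw
      rw [hwu]
      by_cases hwC : w.1 ∈ C
      · obtain ⟨u', hu', hwu', hφu'⟩ := hφ1 w hwC
        rw [hφu'] at hw
        rw [hwu']
        exact hM1 _ (cyl_mono (le_max_left _ _) hw)
      · rw [hφ2 w hwC] at hw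
        have hlt : max M1 B' < ell L (ψ w.1) := by
          by_contra h
          push Not at h
          exact notMem_of_cyl hL (hψL w.1) (cyl_mono h (cyl_symm hw)) (hYL hu)
        have h1 : m' ≤ Encodable.encode (p w.1) := by
          by_contra h
          push Not at h
          have h2 : ell L (z (p w.1)) ≤ B' := hB' (mem_image_of_mem (fun q => ell L (z q))
            (show p w.1 ∈ {q : List Bool | Encodable.encode q < m'} from h))
          rw [← hψell] at h2
          have := le_max_right M1 B'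
          omega
        have h3 : m + 1 ≤ (p w.1).length := hB _ ((le_max_right _ _).trans h1)
        have h4 : y (p w.1) ∈ cylinder u M1 :=
          cyl_trans (cyl_mono (le_max_left _ _) hw)
            (cyl_symm (cyl_mono ((le_max_left _ _).trans h1) (hψy w.1)))
        have h5 : i (y (p w.1)) ∈ cylinder (i u) m := hM1 _ h4
        have h6 := hyw (p w.1) w.1 hwC rfl
        exact cyl_trans h5 (cyl_symm (cyl_mono (by omega) h6))
    · rw [hφ2 w0 hw0]
      obtain ⟨M, hM⟩ := bwd (hKc (v (p w0.1))) (hKi _) (J (Encodable.encode (p w0.1)) w0.1)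
        (Encodable.encode (p w0.1) + 1 + m)
      refine ⟨max M (ell L (ψ w0.1)), fun w hw => ?_⟩
      have h1 : φ w ∈ cylinder (ψ w0.1) (ell L (ψ w0.1)) := cyl_mono (le_max_right _ _) hw
      have h2 : φ w ∉ L := notMem_of_cyl hL (hψL _) h1
      have hwC : w.1 ∉ C := by
        intro h
        obtain ⟨u', hu', -, hφu'⟩ := hφ1 w h
        rw [hφu'] at h2
        exact h2 (hYL hu')
      rw [hφ2 w hwC] at h1 hw
      have h3 : v (p w.1) = v (p w0.1) := by
        rw [← hψv, ← hψv, ell_congr hL (hψL w0.1) h1]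
        exact res_iff.2 h1
      have h4 : K (v (p w0.1)) (J (Encodable.encode (p w.1)) w.1) ∈
          cylinder (K (v (p w0.1)) (J (Encodable.encode (p w0.1)) w0.1)) M := by
        have h5 := cyl_mono (le_max_left _ _) hw
        change K (v (p w.1)) (J (Encodable.encode (p w.1)) w.1) ∈ _ at h5
        rw [h3] at h5
        exact h5
      exact (J_bwd (hM _ h4)).2
  · intro u hu
    have h1 : i u ∈ W := hW (mem_image_of_mem i hu)
    have h2 : i u ∈ C := subset_closure (mem_image_of_mem i hu)
    refine ⟨⟨i u, h1⟩, ?_⟩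
    obtain ⟨u', hu', h3, h4⟩ := hφ1 ⟨i u, h1⟩ h2
    rw [h4]
    exact (hinj h3).symm
  · rintro _ ⟨w, rfl⟩
    by_cases hw : w.1 ∈ C
    · obtain ⟨u, hu, -, h4⟩ := hφ1 w hw
      rw [h4]
      exact hYA hu
    · rw [hφ2 w hw]
      exact (hK _ _).1

end Pool.Agent.H633.SH
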