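import Pool.Agent.H633.SH.Glue

/-!
# Small homogeneous sets in the Cantor space
-/

set_option autoImplicit false

namespace Pool.Agent.H633.SH

open Set Filter Topology PiNat

/-- A space is homogeneous. -/
def Homog (X : Type*) [TopologicalSpace X] : Prop := ∀ x y : X, ∃ h : X ≃ₜ X, h x = y

lemma Homog.congr {X Y : Type*} [TopologicalSpace X] [TopologicalSpace Y] (e : X ≃ₜ Y)
    (h : Homog X) : Homog Y := by
  intro x y
  obtain ⟨f, hf⟩ := h (e.symm x) (e.symm y)
  refine ⟨(e.symm.trans f).trans e, ?_⟩
  simp [hf]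


lemma homog_subgroup (W : AddSubgroup Om) : Homog W := by
  intro x y
  refine ⟨Homeomorph.addLeft (y - x), ?_⟩
  simp

open Classical in
/-- the code of the characteristic function of the set of prefixes -/
noncomputable def pr (x : Om) : Om :=
  fun n => decide (∃ l : List Bool, Encodable.decode n = some l ∧ res x l.length = l)

open Classical in
lemma pr_encode (x : Om) (v : List Bool) : pr x (Encodable.encode v) = decide (res x v.length = v) := by
  unfold pr
  rw [decide_eq_decide]
  constructor
  · rintro ⟨l, h1, h2⟩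
    rw [Encodable.encodek, Option.some.injEq] at h1
    subst h1
    exact h2
  · intro h
    exact ⟨v, Encodable.encodek v, h⟩

open Classical in
lemma pr_encode_res (x z : Om) (N : ℕ) :
    pr x (Encodable.encode (res z N)) = decide (x ∈ cylinder z N) := by
  rw [pr_encode, decide_eq_decide, res_length]
  exact res_iff

lemma pr_continuous : Continuous pr := by
  classical
  refine continuous_pi fun n => ?_
  have : IsLocallyConstant (fun x : Om => pr x n) := by
    rw [IsLocallyConstant.iff_eventually_eq]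
    intro x
    rcases h : (Encodable.decode n : Option (List Bool)) with _ | l
    · refine Eventually.of_forall fun y => ?_
      simp [pr, h]
    · refine (nhds_basis_cyl x).eventually_iff.2 ⟨l.length, trivial, fun y hy => ?_⟩
      simp only [pr, h, Option.some.injEq]
      rw [decide_eq_decide]
      constructor
      · rintro ⟨l', rfl, h2⟩
        exact ⟨_, rfl, by rw [← res_iff.2 hy]; exact h2⟩
      · rintro ⟨l', rfl, h2⟩
        exact ⟨_, rfl, by rw [res_iff.2 hy]; exact h2⟩
  exact this.continuous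

lemma pr_injective : Function.Injective pr := by
  intro x y h
  funext i
  have h1 := congrFun h (Encodable.encode (res x (i + 1)))
  rw [pr_encode_res, pr_encode_res, decide_eq_decide] at h1
  exact (h1.1 (self_mem_cylinder _ _) i (Nat.lt_succ_self i)).symm

lemma exists_sum {Y : Set Om} {w : Om} (hw : w ∈ AddSubgroup.closure (pr '' Y)) :
    ∃ F : Finset Om, ↑F ⊆ Y ∧ w = ∑ x ∈ F, pr x := by
  classical
  have h2 : ∀ a : Om, a + a = 0 := by
    intro a
    funext n
    change a n + a n = 0
    cases a n <;> rfl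
  induction hw using AddSubgroup.closure_induction with
  | mem x hx =>
    obtain ⟨y, hy, rfl⟩ := hx
    exact ⟨{y}, by simpa using hy, by simp⟩
  | zero => exact ⟨∅, by simp, by simp⟩
  | add x y _ _ hx hy =>
    obtain ⟨F, hF, rfl⟩ := hx
    obtain ⟨G, hG, rfl⟩ := hy
    refine ⟨(F \ G) ∪ (G \ F), ?_, ?_⟩
    · intro a ha
      simp only [Finset.coe_union, Finset.coe_sdiff, mem_union, Set.mem_sdiff] at ha
      rcases ha with ha | ha
      · exact hF ha.1
      · exact hG ha.1
    · rw [Finset.sum_union (by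
        rw [Finset.disjoint_left]
        intro a ha hb
        exact (Finset.mem_sdiff.1 ha).2 (Finset.mem_sdiff.1 hb).1)]
      have e1 : ∑ x ∈ F, pr x = ∑ x ∈ F \ G, pr x + ∑ x ∈ F ∩ G, pr x := by
        rw [← Finset.sum_union (Finset.disjoint_sdiff_inter F G), Finset.sdiff_union_inter]
      have e2 : ∑ x ∈ G, pr x = ∑ x ∈ G \ F, pr x + ∑ x ∈ F ∩ G, pr x := by
        rw [Finset.inter_comm, ← Finset.sum_union (Finset.disjoint_sdiff_inter G F),
          Finset.sdiff_union_inter]
      rw [e1, e2]
      have := h2 (∑ x ∈ F ∩ G, pr x)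
      calc ∑ x ∈ F \ G, pr x + ∑ x ∈ F ∩ G, pr x + (∑ x ∈ G \ F, pr x + ∑ x ∈ F ∩ G, pr x)
          = ∑ x ∈ F \ G, pr x + ∑ x ∈ G \ F, pr x + (∑ x ∈ F ∩ G, pr x + ∑ x ∈ F ∩ G, pr x) := by
            abel
        _ = _ := by rw [this, add_zero]
  | neg x _ hx =>
    obtain ⟨F, hF, rfl⟩ := hx
    refine ⟨F, hF, ?_⟩
    rw [neg_eq_iff_add_eq_zero]
    exact h2 _

lemma mem_of_pr_mem {Y : Set Om} {z : Om} (hw : pr z ∈ AddSubgroup.closure (pr '' Y)) : z ∈ Y := by
  classical
  obtain ⟨F, hF, h⟩ := exists_sum hw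
  obtain ⟨N, hN⟩ : ∃ N, ∀ x ∈ F, x ∈ cylinder z N → x = z := by
    have : ∀ x : Om, ∃ n, x ∈ cylinder z n → x = z := by
      intro x
      by_cases hx : x = z
      · exact ⟨0, fun _ => hx⟩
      · obtain ⟨n, hn⟩ := Function.ne_iff.1 hx
        exact ⟨n + 1, fun h => absurd (h n (Nat.lt_succ_self n)) hn⟩
    choose n hn using this
    refine ⟨F.sup n, fun x hx hxz => hn x (cyl_mono (Finset.le_sup hx) hxz)⟩
  by_contra hz
  have h1 := congrFun h (Encodable.encode (res z N))
  rw [pr_encode_res, Finset.sum_apply, Finset.sum_eq_zero] at h1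
  · rw [decide_eq_true (self_mem_cylinder z N)] at h1
    exact absurd h1 (by decide)
  · intro x hx
    rw [pr_encode_res]
    apply decide_eq_false
    intro hxz
    exact hz (hN x hx hxz ▸ hF hx)

/-- A subset of a closed nowhere dense set, contained in `A`, is contained in a homogeneous subset
of `A`. -/
theorem exists_homog {Y L A : Set Om} (hL : IsClosed L) (hYL : Y ⊆ L) (hYA : Y ⊆ A)
    (hLi : interior L = ∅)
    (hA : ∀ v : List Bool, ∃ k : Om → Om, Continuous k ∧ Function.Injective k ∧
      ∀ a, k a ∈ A ∧ res (k a) v.length = v) :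
    ∃ X : Set Om, Y ⊆ X ∧ X ⊆ A ∧ Homog X := by
  rcases Y.eq_empty_or_nonempty with rfl | hY
  · exact ⟨∅, subset_rfl, empty_subset _, fun x => x.2.elim⟩
  obtain ⟨φ, h1, h2, h3⟩ := glue (W := (AddSubgroup.closure (pr '' Y) : Set Om)) pr_continuous
    pr_injective hY AddSubgroup.subset_closure (by
      rintro w ⟨hw, hwc⟩
      have h4 : closure (pr '' Y) ⊆ range pr :=
        closure_minimal (image_subset_range _ _)
          (pr_continuous.isClosedEmbedding pr_injective).isClosed_range
      obtain ⟨z, rfl⟩ := h4 hwc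
      exact mem_image_of_mem pr (mem_of_pr_mem hw)) hL hYL hYA hLi hA
  exact ⟨range φ, h2, h3, (homog_subgroup _).congr h1.toHomeomorph⟩

end Pool.Agent.H633.SH
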